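import Mathlib
import Pool.Agent.ShiftThree

/-!
# `f(3) > 3/8` for the shift pair problem of Trotter and Winkler, in terms of probability spaces
-/

set_option autoImplicit false

open Finset MeasureTheory Filter

namespace Pool.Agent.Results.MP_a60f11_co.ShiftThree

/-- The first `k` of the elements `i 0 < i 1 < ... < i k`. -/
def firstSet {k n : ℕ} (i : Fin (k + 1) → Fin n) : Finset (Fin n) :=
  Finset.univ.image (fun j : Fin k => i j.castSucc)

/-- The last `k` of the elements `i 0 < i 1 < ... < i k`. -/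
def lastSet {k n : ℕ} (i : Fin (k + 1) → Fin n) : Finset (Fin n) :=
  Finset.univ.image (fun j : Fin k => i j.succ)

/-- `f(Ω)`: the minimum over all `(k, n)`-shift pairs `(A, B)` of the probability that `E A`
occurs and `E B` does not. (Only the values of `E` at sets with `k` elements matter.) -/
noncomputable def fOmega {Ω : Type} [MeasurableSpace Ω] (μ : Measure Ω) (k n : ℕ)
    (E : Finset (Fin n) → Set Ω) : ℝ :=
  ⨅ i : {i : Fin (k + 1) → Fin n // StrictMono i}, μ.real (E (firstSet i.1) \ E (lastSet i.1))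

/-- The values `f(Ω)` of all probability spaces with events `E S`. -/
def values (n k : ℕ) : Set ℝ :=
  {v | ∃ (Ω : Type) (_ : MeasurableSpace Ω) (μ : Measure Ω) (E : Finset (Fin n) → Set Ω),
    IsProbabilityMeasure μ ∧ (∀ S, MeasurableSet (E S)) ∧ v = fOmega μ k n E}

/-- `f(n, k)`. -/
noncomputable def f (n k : ℕ) : ℝ := sSup (values n k)

theorem fOmega_nonneg {Ω : Type} [MeasurableSpace Ω] (μ : Measure Ω) (k n : ℕ)
    (E : Finset (Fin n) → Set Ω) : 0 ≤ fOmega μ k n E :=
  Real.iInf_nonneg fun _ => measureReal_nonneg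

theorem bdd {Ω : Type} [MeasurableSpace Ω] (μ : Measure Ω) (k n : ℕ)
    (E : Finset (Fin n) → Set Ω) :
    BddBelow (Set.range (fun i : {i : Fin (k + 1) → Fin n // StrictMono i} =>
      μ.real (E (firstSet i.1) \ E (lastSet i.1)))) :=
  ⟨0, by rintro _ ⟨i, rfl⟩; exact measureReal_nonneg⟩

theorem values_bdd (n k : ℕ) : BddAbove (values n k) := by
  refine ⟨1, ?_⟩
  rintro v ⟨Ω, _, μ, E, hμ, _, rfl⟩
  by_cases h : Nonempty {i : Fin (k + 1) → Fin n // StrictMono i}
  · obtain ⟨i⟩ := h
    exact (ciInf_le (bdd μ k n E) i).trans measureReal_le_one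
  · rw [not_nonempty_iff] at h
    unfold fOmega
    rw [Real.iInf_of_isEmpty]
    exact zero_le_one

theorem values_nonempty (n k : ℕ) : (values n k).Nonempty :=
  ⟨_, Unit, ⊤, Measure.dirac (), fun _ => ∅, inferInstance, fun _ => MeasurableSet.empty, rfl⟩

theorem strictMono_exists {k n : ℕ} (h : k + 1 ≤ n) :
    Nonempty {i : Fin (k + 1) → Fin n // StrictMono i} :=
  ⟨⟨Fin.castLE h, Fin.strictMono_castLE h⟩⟩

/-- Restricting a family for `[n + 1]` to the subsets of `[n]`. -/
theorem f_succ_le {n k : ℕ} (h : k + 1 ≤ n) : f (n + 1) k ≤ f n k := by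
  refine csSup_le (values_nonempty _ _) ?_
  rintro v ⟨Ω, mΩ, μ, E, hμ, hE, rfl⟩
  let E' : Finset (Fin n) → Set Ω := fun S => E (S.image Fin.castSucc)
  have hmem : fOmega μ k n E' ∈ values n k := ⟨Ω, mΩ, μ, E', hμ, fun S => hE _, rfl⟩
  refine le_trans ?_ (le_csSup (values_bdd n k) hmem)
  have : Nonempty {i : Fin (k + 1) → Fin n // StrictMono i} := strictMono_exists h
  refine le_ciInf fun i => ?_
  let i' : {i : Fin (k + 1) → Fin (n + 1) // StrictMono i} :=
    ⟨fun j => (i.1 j).castSucc, fun a b hab => Fin.castSucc_lt_castSucc_iff.mpr (i.2 hab)⟩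
  refine (ciInf_le (bdd μ k (n + 1) E) i').trans (le_of_eq ?_)
  have e1 : firstSet i'.1 = (firstSet i.1).image Fin.castSucc := by
    unfold firstSet
    rw [Finset.image_image]
    rfl
  have e2 : lastSet i'.1 = (lastSet i.1).image Fin.castSucc := by
    unfold lastSet
    rw [Finset.image_image]
    rfl
  rw [e1, e2]

/-! ### The law -/

/-- The label rule, as a number in base two. -/
def code : ℕ :=
  (((((0x12dfff12d00012d12d00012d00000012d00012d12d12d00012d12d00012d00000012d000 * 2 ^ 288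
  + 0xbfffff12d00012d12d00012d00000012d000fffffffff10dbfffffbffbff10d10dbff10d) * 2 ^ 288
  + 0xbfffff3ff00016d12d0001ff0000001ed000bfffff3ff0001ef16d0001ff0000001ef000) * 2 ^ 288
  + 0xbfffff3ff10d1ef16d16d1ff10d10d1ef10dbfffff3ff00012d12d00012d00000012d000) * 2 ^ 288
  + 0xfffffffff10dbffbfffffbff10d10dbff10dbffffffff10dffffffffffff10d10dfff10d) * 2 ^ 288
  + 0xbfffff3ff00012d12d0001ff0000001ed000ffffffbff10dbffbffbffbff10d10dbff10d)

/-- The label rule on triples of labels from `Fin 12`. -/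
def W (a b c : Fin 12) : Bool := Nat.testBit code (1727 - (144 * a.val + 12 * b.val + c.val))

theorem count_W : (∑ b : Fin 12, ∑ c : Fin 12, (∑ a : Fin 12, if W a b c = true then 1 else 0) *
      (∑ d : Fin 12, if W b c d = true then 0 else 1)) = 7867 := by
  decide +kernel

/-- The event of the set `S`: the labels of `S`, read in increasing order, obey the rule. -/
def ev (n : ℕ) (S : Finset (Fin n)) : Set (Fin n → Fin 12) :=
  {x | ∃ a b c : Fin n, a < b ∧ b < c ∧ S = {a, b, c} ∧ W (x a) (x b) (x c) = true}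

theorem triple_eq {n : ℕ} {a b c a' b' c' : Fin n} (h1 : a < b) (h2 : b < c)
    (h1' : a' < b') (h2' : b' < c') (h : ({a, b, c} : Finset (Fin n)) = {a', b', c'}) :
    a = a' ∧ b = b' ∧ c = c' := by
  have ha : a ∈ ({a', b', c'} : Finset (Fin n)) := by rw [← h]; simp
  have hb : b ∈ ({a', b', c'} : Finset (Fin n)) := by rw [← h]; simp
  have hc : c ∈ ({a', b', c'} : Finset (Fin n)) := by rw [← h]; simp
  have ha' : a' ∈ ({a, b, c} : Finset (Fin n)) := by rw [h]; simp
  have hb' : b' ∈ ({a, b, c} : Finset (Fin n)) := by rw [h]; simp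
  have hc' : c' ∈ ({a, b, c} : Finset (Fin n)) := by rw [h]; simp
  simp only [Finset.mem_insert, Finset.mem_singleton] at ha hb hc ha' hb' hc'
  simp only [Fin.lt_def, Fin.ext_iff] at *
  omega

theorem mem_ev {n : ℕ} (x : Fin n → Fin 12) {a b c : Fin n} (h1 : a < b) (h2 : b < c) :
    x ∈ ev n {a, b, c} ↔ W (x a) (x b) (x c) = true := by
  constructor
  · rintro ⟨a', b', c', h1', h2', hS, hW⟩
    obtain ⟨rfl, rfl, rfl⟩ := triple_eq h1 h2 h1' h2' hS
    exact hW
  · intro hW
    exact ⟨a, b, c, h1, h2, rfl, hW⟩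

theorem firstSet_three {n : ℕ} (g : Fin 4 → Fin n) : firstSet g = {g 0, g 1, g 2} := by
  unfold firstSet
  ext a
  simp only [Finset.mem_image, Finset.mem_univ, true_and, Finset.mem_insert,
    Finset.mem_singleton, Fin.exists_fin_succ, Fin.exists_fin_zero]
  simp [eq_comm]

theorem lastSet_three {n : ℕ} (g : Fin 4 → Fin n) : lastSet g = {g 1, g 2, g 3} := by
  unfold lastSet
  ext a
  simp only [Finset.mem_image, Finset.mem_univ, true_and, Finset.mem_insert,
    Finset.mem_singleton, Fin.exists_fin_succ, Fin.exists_fin_zero]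
  simp [eq_comm]

theorem lower (n : ℕ) (hn : 4 ≤ n) : (7867 / 20736 : ℝ) ≤ f n 3 := by
  classical
  let mΩ : MeasurableSpace (Fin n → Fin 12) := ⊤
  let μ : Measure (Fin n → Fin 12) := ProbabilityTheory.uniformOn Set.univ
  have hμ : IsProbabilityMeasure μ :=
    ProbabilityTheory.isProbabilityMeasure_uniformOn Set.finite_univ Set.univ_nonempty
  have hmem : fOmega μ 3 n (ev n) ∈ values n 3 :=
    ⟨_, mΩ, μ, ev n, hμ, fun _ => trivial, rfl⟩
  refine le_trans ?_ (le_csSup (values_bdd n 3) hmem)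
  have : Nonempty {i : Fin (3 + 1) → Fin n // StrictMono i} := strictMono_exists hn
  refine le_ciInf fun g => le_of_eq ?_
  obtain ⟨g, hg⟩ := g
  change (7867 / 20736 : ℝ) = μ.real (ev n (firstSet g) \ ev n (lastSet g))
  have h01 : g 0 < g 1 := hg (by decide)
  have h12 : g 1 < g 2 := hg (by decide)
  have h23 : g 2 < g 3 := hg (by decide)
  rw [firstSet_three, lastSet_three]
  set F := Finset.univ.filter (fun x : Fin n → Fin 12 =>
    W (x (g 0)) (x (g 1)) (x (g 2)) = true ∧ ¬ W (x (g 1)) (x (g 2)) (x (g 3)) = true) with hF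
  have hset : ev n {g 0, g 1, g 2} \ ev n {g 1, g 2, g 3} = (F : Set (Fin n → Fin 12)) := by
    ext x
    rw [Set.mem_sdiff, mem_ev x h01 h12, mem_ev x h12 h23, hF]
    simp
  have hc : F.card * 12 ^ 4 = 7867 * 12 ^ n := by
    have h := Pool.Agent.ShiftThree.count_gen (q := 12) g hg.injective
      (fun y => W (y 0) (y 1) (y 2) = true ∧ ¬ W (y 1) (y 2) (y 3) = true)
    rw [Pool.Agent.ShiftThree.count_mid, count_W] at h
    exact h
  rw [hset]
  have hμF : μ (F : Set (Fin n → Fin 12)) = (F.card : ENNReal) / (12 ^ n : ENNReal) := by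
    change ProbabilityTheory.uniformOn Set.univ (F : Set (Fin n → Fin 12)) = _
    rw [ProbabilityTheory.uniformOn_univ, Measure.count_apply_finset]
    simp
  rw [Measure.real, hμF, ENNReal.toReal_div]
  simp only [ENNReal.toReal_natCast, ENNReal.toReal_pow, ENNReal.toReal_ofNat]
  have hcr : (F.card : ℝ) * 12 ^ 4 = 7867 * 12 ^ n := by exact_mod_cast hc
  rw [eq_div_iff (by positivity), div_mul_eq_mul_div, div_eq_iff (by norm_num)]
  norm_num at hcr ⊢
  linarith

/-- **The conjecture `f(3) = 3/8` of Trotter and Winkler is false:**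
`f(n, 3) ≥ 7867 / 20736 > 3 / 8` for all `n ≥ 4`, the limit `f(3)` exists and is at least
`7867 / 20736 > 3 / 8`. -/
theorem result :
    (∀ n : ℕ, 4 ≤ n → (7867 / 20736 : ℝ) ≤ f n 3) ∧
    ∃ L : ℝ, Tendsto (fun n => f n 3) atTop (nhds L) ∧ (7867 / 20736 : ℝ) ≤ L ∧
      (3 / 8 : ℝ) < L := by
  refine ⟨lower, ?_⟩
  have hanti : Antitone (fun m : ℕ => f (m + 4) 3) :=
    antitone_nat_of_succ_le fun m => by
      have := f_succ_le (n := m + 4) (k := 3) (by omega)
      rwa [show m + 1 + 4 = m + 4 + 1 by ring]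
  have hb : BddBelow (Set.range (fun m : ℕ => f (m + 4) 3)) := by
    refine ⟨7867 / 20736, ?_⟩
    rintro _ ⟨m, rfl⟩
    exact lower (m + 4) (by omega)
  have ht := tendsto_atTop_ciInf hanti hb
  refine ⟨⨅ m : ℕ, f (m + 4) 3, ?_, ?_, ?_⟩
  · exact (tendsto_add_atTop_iff_nat 4).mp ht
  · exact le_ciInf fun m => lower (m + 4) (by omega)
  · have h := le_ciInf (f := fun m : ℕ => f (m + 4) 3) (c := (7867 / 20736 : ℝ))
      (fun m => lower (m + 4) (by omega))
    refine lt_of_lt_of_le ?_ h
    norm_num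

end Pool.Agent.Results.MP_a60f11_co.ShiftThree
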